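import Pool.Agent.W988.WD.Defs

/-!
# WD-FAITH
-/

set_option autoImplicit false
open scoped InnerProductSpace Topology
open Filter

namespace Pool.Agent.W74.WD

open Pool.Agent.W988.WD

variable {H : Type} [NormedAddCommGroup H] [InnerProductSpace ℂ H] [CompleteSpace H]

/-- the properties of `(1 + a)⁻¹` -/
theorem resolvent (a : H →L[ℂ] H) (ha : a.IsPositive) :
    ∃ b : H →L[ℂ] H, b * (1 + a) = 1 ∧ (1 + a) * b = 1 ∧ star b = b ∧
      (∀ ξ : H, ‖b ξ‖ ≤ ‖ξ‖) ∧ (∀ ξ : H, (⟪b ξ, a (b ξ)⟫_ℂ).re ≤ ‖ξ‖ ^ 2) ∧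
      (1 - b).IsPositive ∧ (a - (1 - b)).IsPositive := by
  have hsa : star a = a := ha.isSelfAdjoint
  have hu : IsUnit (1 + a) := by
    refine ContinuousLinearMap.isUnit_of_forall_le_norm_inner_map (1 + a) (c := 1) one_pos ?_
    intro ξ
    have h1 : (⟪(1 + a) ξ, ξ⟫_ℂ).re = ‖ξ‖ ^ 2 + (⟪a ξ, ξ⟫_ℂ).re := by
      rw [add_apply, one_apply_eq_self, inner_add_left,
        Complex.add_re, inner_self_eq_norm_sq_to_K]
      norm_cast
    have h2 : 0 ≤ (⟪a ξ, ξ⟫_ℂ).re := ha.re_inner_nonneg_left ξ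
    have h3 := Complex.re_le_norm (⟪(1 + a) ξ, ξ⟫_ℂ)
    rw [NNReal.coe_one, mul_one]
    linarith
  obtain ⟨u, hu⟩ := hu
  set b : H →L[ℂ] H := ((u⁻¹ : (H →L[ℂ] H)ˣ) : H →L[ℂ] H) with hb
  have h1 : b * (1 + a) = 1 := by rw [← hu, hb]; exact u.inv_mul
  have h2 : (1 + a) * b = 1 := by rw [← hu, hb]; exact u.mul_inv
  have h3 : star b = b := by
    have h4 := congrArg star h1
    rw [star_mul, star_add, star_one, hsa] at h4
    calc star b = b * (1 + a) * star b := by rw [h1, one_mul]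
      _ = b * ((1 + a) * star b) := by rw [mul_assoc]
      _ = b := by rw [h4, mul_one]
  have h5 : ∀ ξ : H, ξ = b ξ + a (b ξ) := by
    intro ξ
    have := congrArg (fun T : H →L[ℂ] H => T ξ) h2
    simp only [add_mul, one_mul, add_apply, mul_apply_eq_comp,
      one_apply_eq_self] at this
    exact this.symm
  have h6 : ∀ ξ : H, (⟪b ξ, ξ⟫_ℂ).re = ‖b ξ‖ ^ 2 + (⟪b ξ, a (b ξ)⟫_ℂ).re := by
    intro ξ
    calc (⟪b ξ, ξ⟫_ℂ).re = (⟪b ξ, b ξ + a (b ξ)⟫_ℂ).re := by rw [← h5 ξ]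
      _ = ‖b ξ‖ ^ 2 + (⟪b ξ, a (b ξ)⟫_ℂ).re := by
        rw [inner_add_right, Complex.add_re, inner_self_eq_norm_sq_to_K]
        norm_cast
  have h7 : ∀ ξ : H, 0 ≤ (⟪b ξ, a (b ξ)⟫_ℂ).re := fun ξ => ha.re_inner_nonneg_right (b ξ)
  have h8 : ∀ ξ : H, (⟪b ξ, ξ⟫_ℂ).re ≤ ‖b ξ‖ * ‖ξ‖ := fun ξ =>
    (Complex.re_le_norm _).trans (norm_inner_le_norm _ _)
  have h9 : ∀ ξ : H, ‖b ξ‖ ≤ ‖ξ‖ := by
    intro ξ
    by_contra hcon
    push Not at hcon
    have h10 := h6 ξ
    have h11 := h7 ξ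
    have h12 := h8 ξ
    have h13 := norm_nonneg ξ
    nlinarith
  have h10 : 1 - b = b * (a + a * a) * b := by
    have h11 : a + a * a = (1 + a) * ((1 + a) - 1) := by noncomm_ring
    rw [h11, mul_sub, mul_sub, sub_mul, mul_one, ← mul_assoc b, h1, one_mul, h2, one_mul]
  have h11 : a - (1 - b) = b * (a * a + a * a * a) * b := by
    rw [h10]
    have h12 : a * a + a * a * a = (1 + a) * a * (1 + a) - (a + a * a) := by noncomm_ring
    have h13 : b * ((1 + a) * a * (1 + a)) * b = a := by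
      calc b * ((1 + a) * a * (1 + a)) * b = (b * (1 + a)) * a * ((1 + a) * b) := by noncomm_ring
        _ = a := by rw [h1, h2, one_mul, mul_one]
    rw [h12, mul_sub, sub_mul, h13]
  have h12 : (a * a).IsPositive := by
    have := ContinuousLinearMap.isPositive_adjoint_comp_self a
    rw [← ContinuousLinearMap.star_eq_adjoint, hsa] at this
    exact this
  have h13 : (a * a * a).IsPositive := by
    have := ha.conj_adjoint a
    rw [← ContinuousLinearMap.star_eq_adjoint, hsa] at this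
    exact this
  have h14 : ∀ c : H →L[ℂ] H, c.IsPositive → (b * c * b).IsPositive := by
    intro c hc
    have := hc.conj_adjoint b
    rw [← ContinuousLinearMap.star_eq_adjoint, h3] at this
    exact this
  refine ⟨b, h1, h2, h3, h9, ?_, ?_, ?_⟩
  · intro ξ
    have h15 := h6 ξ
    have h16 := h8 ξ
    have h17 := h9 ξ
    have h18 := norm_nonneg ξ
    have h19 := norm_nonneg (b ξ)
    nlinarith [sq_nonneg ‖b ξ‖]
  · rw [h10]
    exact h14 _ (ha.add h12)
  · rw [h11]
    exact h14 _ (h12.add h13)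

/-- inverses of elements of a von Neumann algebra -/
theorem inv_mem (M : VonNeumannAlgebra H) {c b : H →L[ℂ] H} (hc : c ∈ M) (h1 : b * c = 1)
    (h2 : c * b = 1) : b ∈ M := by
  rw [← M.commutant_commutant, VonNeumannAlgebra.mem_commutant_iff]
  intro g hg
  have h3 := (VonNeumannAlgebra.mem_commutant_iff.1 hg) c hc
  calc g * b = b * c * (g * b) := by rw [h1, one_mul]
    _ = b * (c * g) * b := by noncomm_ring
    _ = b * (g * c) * b := by rw [h3]
    _ = b * g * (c * b) := by noncomm_ring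
    _ = b * g := by rw [h2, mul_one]

/-- normal functionals are continuous on bounded sets -/
theorem normal_lim (M : VonNeumannAlgebra H) (f : (H →L[ℂ] H) → ℂ) (hf : NormalOn M f)
    {ι : Type} (F : Filter ι) (z : ι → (H →L[ℂ] H)) (w : H →L[ℂ] H) (hz : ∀ i, z i ∈ M)
    (hw : w ∈ M) (hb : ∀ i (ξ : H), ‖z i ξ‖ ≤ ‖ξ‖) (hlim : WLim F z w) :
    Tendsto (fun i => f (z i)) F (𝓝 (f w)) := by
  obtain ⟨s, t, hs, ht, hst⟩ := hf
  rw [hst w hw]
  simp only [fun i => hst (z i) (hz i)]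
  refine tendsto_tsum_of_dominated_convergence (bound := fun n => ‖s n‖ ^ 2 + ‖t n‖ ^ 2)
    (hs.add ht) (fun n => hlim (s n) (t n)) (Eventually.of_forall fun i n => ?_)
  have h1 := norm_inner_le_norm (𝕜 := ℂ) (t n) (z i (s n))
  have h2 := hb i (s n)
  have h3 := norm_nonneg (t n)
  have h4 := norm_nonneg (s n)
  have h5 : ‖t n‖ * ‖z i (s n)‖ ≤ ‖t n‖ * ‖s n‖ := mul_le_mul_of_nonneg_left h2 h3
  nlinarith [sq_nonneg (‖s n‖ - ‖t n‖)]

theorem p_FAITH (h : S_CPT) (h2 : S_LSC) : S_FAITH := by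
  intro H _ _ _ N M E hNM hirr hE x₀ hx₀ hEx₀
  classical
  -- the left kernel
  let L := {x : H →L[ℂ] H // x ∈ M ∧ E (star x * x) = 0}
  have hLM : ∀ x : L, x.1 ∈ M := fun x => x.2.1
  have hE0 : E 0 = 0 := by
    have := hE.smul 0 0 (zero_mem M)
    rw [zero_smul, zero_smul] at this
    exact this
  have hEsub : ∀ x ∈ M, ∀ y ∈ M, E (x - y) = E x - E y := by
    intro x hx y hy
    have h3 := hE.add (x - y) (sub_mem hx hy) y hy
    rw [sub_add_cancel] at h3
    rw [h3, add_sub_cancel_right]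
  -- the elements
  let a : Finset L × ℕ → (H →L[ℂ] H) := fun i => (i.2 : ℂ) • ∑ x ∈ i.1, star x.1 * x.1
  have ha0M : ∀ F : Finset L, ∑ x ∈ F, star x.1 * x.1 ∈ M := fun F =>
    sum_mem fun x _ => mul_mem (star_mem (hLM x)) (hLM x)
  have haE0 : ∀ F : Finset L, E (∑ x ∈ F, star x.1 * x.1) = 0 := by
    intro F
    induction F using Finset.induction_on with
    | empty => rw [Finset.sum_empty]; exact hE0
    | insert x F hx ih =>
      rw [Finset.sum_insert hx, hE.add _ (mul_mem (star_mem (hLM x)) (hLM x)) _ (ha0M F), ih,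
        x.2.2, add_zero]
  have haM : ∀ i, a i ∈ M := by
    intro i
    have h3 : a i = i.2 • ∑ x ∈ i.1, star x.1 * x.1 := Nat.cast_smul_eq_nsmul ℂ _ _
    rw [h3]
    exact nsmul_mem (ha0M i.1) i.2
  have haE : ∀ i, E (a i) = 0 := by
    intro i
    have h3 := hE.smul (i.2 : ℂ) _ (ha0M i.1)
    rw [haE0, smul_zero] at h3
    exact h3
  have hapos : ∀ i, (a i).IsPositive := by
    intro i
    have h3 : a i = i.2 • ∑ x ∈ i.1, star x.1 * x.1 := Nat.cast_smul_eq_nsmul ℂ _ _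
    rw [h3]
    refine (ContinuousLinearMap.nonneg_iff_isPositive _).1 (nsmul_nonneg ?_ _)
    refine (ContinuousLinearMap.nonneg_iff_isPositive _).2 ?_
    refine ContinuousLinearMap.isPositive_sum _ fun x _ => ?_
    exact ContinuousLinearMap.isPositive_adjoint_comp_self x.1
  choose b hb1 hb2 hb3 hb4 hb5 hb6 hb7 using fun i => resolvent (a i) (hapos i)
  have hbM : ∀ i, b i ∈ M := fun i => inv_mem M (add_mem (one_mem M) (haM i)) (hb1 i) (hb2 i)
  have hEb : ∀ i, E (b i) = 1 := by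
    intro i
    have hkM : 1 - b i ∈ M := sub_mem (one_mem M) (hbM i)
    have p1 := hE.pos _ hkM (hb6 i)
    have p2 := hE.pos _ (sub_mem (haM i) hkM) (hb7 i)
    rw [hEsub _ (haM i) _ hkM, haE, zero_sub] at p2
    have p3 : E (1 - b i) = 0 := by
      apply le_antisymm
      · have := (ContinuousLinearMap.nonneg_iff_isPositive _).2 p2
        exact neg_nonneg.1 this
      · exact (ContinuousLinearMap.nonneg_iff_isPositive _).2 p1
    rw [hEsub _ (one_mem M) _ (hbM i), hE.one] at p3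
    exact (sub_eq_zero.1 p3).symm
  -- the limit
  let U : Ultrafilter (Finset L × ℕ) := Ultrafilter.of atTop
  have hU : (U : Filter (Finset L × ℕ)) ≤ atTop := Ultrafilter.of_le atTop
  obtain ⟨hA, hB⟩ := h H (Finset L × ℕ) U b
  obtain ⟨w, -, hw⟩ := hA 1 fun i => ContinuousLinearMap.opNorm_le_bound _ zero_le_one fun ξ => by
    rw [one_mul]; exact hb4 i ξ
  have hwM : w ∈ M := hB w hw M hbM
  have hEw : E w = 1 := by
    apply ContinuousLinearMap.ext
    intro ξ
    apply ext_inner_left ℂ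
    intro η
    have h3 := normal_lim M _ (hE.normal ξ η) (U : Filter _) b w hbM hwM hb4 hw
    simp only [hEb] at h3
    exact tendsto_nhds_unique h3 tendsto_const_nhds
  -- the range of `w` is killed by the left kernel
  have hker : ∀ x : L, x.1 * w = 0 := by
    intro x
    apply ContinuousLinearMap.ext
    intro ξ
    apply ext_inner_left ℂ
    intro η
    rw [zero_apply, inner_zero_right, mul_apply_eq_comp]
    have h3 : Tendsto (fun i => ⟪η, x.1 (b i ξ)⟫_ℂ) U (𝓝 ⟪η, x.1 (w ξ)⟫_ℂ) := by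
      have h4 := hw ξ (star x.1 η)
      simp only [ContinuousLinearMap.star_eq_adjoint, ContinuousLinearMap.adjoint_inner_left] at h4
      exact h4
    refine tendsto_nhds_unique h3 ?_
    refine Tendsto.mono_left ?_ hU
    have h5 : Tendsto (fun i : Finset L × ℕ => ‖η‖ * (‖ξ‖ / Real.sqrt i.2)) atTop (𝓝 0) := by
      have h6 : Tendsto (fun n : ℕ => ‖η‖ * (‖ξ‖ / Real.sqrt n)) atTop (𝓝 0) := by
        have h7 : Tendsto (fun n : ℕ => Real.sqrt n) atTop atTop :=
          Real.tendsto_sqrt_atTop.comp tendsto_natCast_atTop_atTop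
        have h8 := (h7.const_div_atTop ‖ξ‖).const_mul ‖η‖
        rw [mul_zero] at h8
        exact h8
      exact h6.comp (tendsto_snd.mono_left (by rw [← prod_atTop_atTop_eq]))
    refine squeeze_zero_norm' ?_ h5
    filter_upwards [eventually_ge_atTop (({x} : Finset L), 1)] with i hi
    have hxi : x ∈ i.1 := hi.1 (Finset.mem_singleton_self x)
    have hi2 : 1 ≤ i.2 := hi.2
    have hi0 : (0 : ℝ) < i.2 := by exact_mod_cast hi2
    refine (norm_inner_le_norm _ _).trans (mul_le_mul_of_nonneg_left ?_ (norm_nonneg _))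
    have h6 := hb5 i ξ
    have h7 : (⟪b i ξ, a i (b i ξ)⟫_ℂ).re = i.2 * ∑ y ∈ i.1, ‖y.1 (b i ξ)‖ ^ 2 := by
      have h8 : a i (b i ξ) = (i.2 : ℂ) • ∑ y ∈ i.1, (star y.1) (y.1 (b i ξ)) := by
        change ((i.2 : ℂ) • ∑ y ∈ i.1, star y.1 * y.1) (b i ξ) = _
        rw [smul_apply, sum_apply]
        rfl
      rw [h8, inner_smul_right, inner_sum]
      have h9 : ∀ y ∈ i.1, ⟪b i ξ, (star y.1) (y.1 (b i ξ))⟫_ℂ = ((‖y.1 (b i ξ)‖ ^ 2 : ℝ) : ℂ) := by
        intro y _
        rw [ContinuousLinearMap.star_eq_adjoint, ContinuousLinearMap.adjoint_inner_right,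
          inner_self_eq_norm_sq_to_K]
        norm_cast
      rw [Finset.sum_congr rfl h9, ← Complex.ofReal_sum]
      rw [show ((i.2 : ℕ) : ℂ) = (((i.2 : ℕ) : ℝ) : ℂ) by norm_cast, ← Complex.ofReal_mul,
        Complex.ofReal_re]
    have h8 : ‖x.1 (b i ξ)‖ ^ 2 ≤ ∑ y ∈ i.1, ‖y.1 (b i ξ)‖ ^ 2 :=
      Finset.single_le_sum (f := fun y : L => ‖y.1 (b i ξ)‖ ^ 2) (fun y _ => sq_nonneg _) hxi
    have h9 : ‖x.1 (b i ξ)‖ ^ 2 * i.2 ≤ ‖ξ‖ ^ 2 := by
      rw [h7] at h6
      nlinarith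
    rw [le_div_iff₀ (Real.sqrt_pos.2 hi0)]
    refine le_of_sq_le_sq ?_ (norm_nonneg _)
    rw [mul_pow, Real.sq_sqrt hi0.le]
    exact h9
  -- `w` is the identity on the common kernel
  have hid : ∀ ξ : H, (∀ x : L, x.1 ξ = 0) → w ξ = ξ := by
    intro ξ hξ
    have h3 : ∀ i, b i ξ = ξ := by
      intro i
      have h4 : a i ξ = 0 := by
        change ((i.2 : ℂ) • ∑ y ∈ i.1, star y.1 * y.1) ξ = _
        rw [smul_apply, sum_apply]
        rw [Finset.sum_eq_zero, smul_zero]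
        intro y _
        rw [mul_apply_eq_comp, hξ, map_zero]
      have h5 := congrArg (fun T : H →L[ℂ] H => T ξ) (hb1 i)
      simp only [mul_apply_eq_comp, add_apply,
        one_apply_eq_self, h4, add_zero] at h5
      exact h5
    apply ext_inner_left ℂ
    intro η
    have h4 := hw ξ η
    simp only [h3] at h4
    exact tendsto_nhds_unique h4 tendsto_const_nhds
  -- `w` is self adjoint
  have hsa : star w = w := by
    apply ContinuousLinearMap.ext
    intro ξ
    apply ext_inner_left ℂ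
    intro η
    rw [ContinuousLinearMap.star_eq_adjoint, ContinuousLinearMap.adjoint_inner_right]
    have h3 := hw ξ η
    have h4 : Tendsto (fun i => ⟪η, b i ξ⟫_ℂ) U (𝓝 ⟪w η, ξ⟫_ℂ) := by
      have h5 := (Complex.continuous_conj.tendsto _).comp (hw η ξ)
      have h6 : (starRingEnd ℂ) ⟪ξ, w η⟫_ℂ = ⟪w η, ξ⟫_ℂ := inner_conj_symm _ _
      rw [h6] at h5
      refine h5.congr fun i => ?_
      change (starRingEnd ℂ) ⟪ξ, b i η⟫_ℂ = _
      rw [inner_conj_symm]
      have h7 := hb3 i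
      rw [ContinuousLinearMap.star_eq_adjoint] at h7
      conv_lhs => rw [← h7]
      rw [ContinuousLinearMap.adjoint_inner_left]
    exact tendsto_nhds_unique h4 h3
  -- `w` commutes with `N`
  have hcomm1 : ∀ y ∈ N, w * y * w = y * w := by
    intro y hy
    apply ContinuousLinearMap.ext
    intro ξ
    rw [mul_apply_eq_comp, mul_apply_eq_comp]
    change w (y (w ξ)) = y (w ξ)
    apply hid
    intro x
    have h3 : E (star (x.1 * y) * (x.1 * y)) = 0 := by
      have h4 : star (x.1 * y) * (x.1 * y) = star y * (star x.1 * x.1) * y := by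
        rw [star_mul]; noncomm_ring
      rw [h4, hE.bimod _ (star_mem hy) _ hy _ (mul_mem (star_mem (hLM x)) (hLM x)), x.2.2]
      simp
    have h5 := hker ⟨x.1 * y, mul_mem (hLM x) (hNM y hy), h3⟩
    have h6 := congrArg (fun T : H →L[ℂ] H => T ξ) h5
    exact h6
  have hcomm : ∀ y ∈ N, w * y = y * w := by
    intro y hy
    have h3 := hcomm1 y hy
    have h4 := congrArg star (hcomm1 (star y) (star_mem hy))
    simp only [star_mul, star_star, hsa] at h4
    rw [← h4, ← mul_assoc, h3]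
  obtain ⟨c, hc⟩ := hirr w hwM hcomm
  have h3 := hker ⟨x₀, hx₀, hEx₀⟩
  simp only at h3
  by_cases hc0 : c = 0
  · rw [hc0, zero_smul] at hc
    rw [hc, hE0] at hEw
    calc x₀ = x₀ * 1 := (mul_one _).symm
      _ = 0 := by rw [← hEw, mul_zero]
  · rw [hc, mul_smul_comm, mul_one, smul_eq_zero] at h3
    exact h3.resolve_left hc0

end Pool.Agent.W74.WD
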